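import Mathlib
import Pool.Agent.Y734.R.Fin5
import Pool.Agent.Y734.R.P1.Main
import Pool.Agent.Y734.R.P2.Main
import Pool.Agent.Y734.R.P3.Main
import Pool.Agent.Y734.R.P4.Main
import Pool.Agent.Y734.R.MON.Main
import Pool.Agent.Y734.R.LOWB.Main

/-!
# Integral points of bounded degree of the moduli spaces `M_{0,n}`

`X` is the Deligne–Mumford compactification of the moduli space `M_{0,n}` of `n` different points
of the projective line, `D` its boundary (a divisor with normal crossings), `k` a number field (for
example `ℚ`), `S` a finite set of primes, and `r ≥ 2` any degree. The coordinate ring of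
`M_{0,n} = X ∖ D` over `ℤ` is generated by the cross ratios of four of the points, which are units
of this ring; so the `S`-integral points of `M_{0,n}` over `L` are the `n`-tuples of points of
`ℙ¹(L)`, up to projective linear transformations, for which all cross ratios of four different
points are `S`-units.

For all number fields `k`, all `S` and all `n > 256 r ^ 5` there are only finitely many `S`-integral
points of `M_{0,n}` over the extensions `L` of `k` of degree at most `r` (the field `L` varies with
the point). For each `k` the property that there are only finitely many for all `S` holds exactly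
for the `n ≥ m`, where `2 r + 3 ≤ m ≤ 256 r ^ 5 + 1`; for some `k` the number `m` is at least
`4 r - 1` (for `k = ℚ(ζ)` with a primitive root of unity `ζ` of order `2 r - 2`,
where the points `0, ∞, ζ ^ i, ζ ^ i x` form an infinite family for `n = 4 r - 2`).

Proof. Let the points be `∞` and `x_i ∈ L`, with `x_1 = 0`, `x_2 = 1`. The norms `u_ij` of the
differences `x_i - x_j` are `S`-units of `k`. If there are infinitely many such vectors `(u_ij)`,
the subspace theorem (for unit equations) shows that for one of them there is a family
`u_ij z ^ (e_ij)`, with `e ≠ 0`, which satisfies all equations of the universal norms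
`w_ij = ∏ (X_i^(s) - X_j^(s))`, where the product is over the `r` universal conjugates `s`. Take a
second, independent system of variables, with norms `w'_ij`. The family
`(u_ij z ^ (e_ij), u_ij z ^ (-e_ij))` satisfies all equations of `(w_ij, w'_ij)` (`PR`), and it
gives a valuation of the field of rational functions in both systems for which the values of the
`w_ij` are ordered as the exponents `-e_ij` and all products `w_ij w'_ij` are units (`VAL`). The
values of the differences of the variables are `q = 2 r` ultrametrics `δ_s` on the set of indices
whose product is one. If the number `M` of indices is at least `8 q ^ 5`, all of them are constant,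
so all `e_ij` are zero, a contradiction. To see this write the value group additively, let `D_s` be
the diameters and `E` their sum, and suppose `E > 0`. The matrices `A_s = D_s - δ_s`, with diagonal
entries `E`, are positive semidefinite (`P1`), and their sum is `E (J + (q - 1) I)`, where all
entries of `J` are one. With a suitable test vector this bounds the sum of the entries of `A_s` on a
cluster of the tree of `δ_s` in terms of the size of its complement (`P2`). So there is a set of at
least `M / 2` indices on which the sum of the diameters is at most `8 q ^ 2 (q - 1) E / (M - 2)`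
(`P3`); but for each set of at least `q` indices it is at least `E / (q (q - 1))` (`P4`, by the
pigeonhole principle applied to a point outside). The same argument, for the valuations of the field
of rational functions for which the `w_ij` are units, shows that the cross ratios of the `X_i^(s)`
are integral over `ℚ[w_ij, 1 / w_ij]`, so there are only finitely many points with given norms
(`INT`, `FIN`).
-/

set_option autoImplicit false

namespace Pool.Agent.Results.MP_651af7_nt.BoundedDegreePointsModuli

variable {K : Type} [Field K] {n : ℕ}

/-- The determinant of two vectors of `K²`; it is different from zero if and only if they are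
homogeneous coordinates of two different points of the projective line. -/
def det2 (u v : Fin 2 → K) : K := u 0 * v 1 - u 1 * v 0

/-- The cross ratio of the points number `i, j, k, l`. -/
noncomputable def crossRatio (P : Fin n → Fin 2 → K) (i j k l : Fin n) : K :=
  det2 (P i) (P j) * det2 (P k) (P l) / (det2 (P i) (P k) * det2 (P j) (P l))

/-- `a` is an `S`-unit: a unit of the ring of those elements of `K` which become integral when they
are multiplied by a power of the product of the primes in `S`. -/
def IsSUnit (S : Finset ℕ) (a : K) : Prop :=
  a ≠ 0 ∧ ∃ m : ℕ, IsIntegral ℤ ((∏ p ∈ S, (p : K)) ^ m * a) ∧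
    IsIntegral ℤ ((∏ p ∈ S, (p : K)) ^ m * a⁻¹)

/-- `P` represents an `S`-integral point of `M_{0,n}` over `K`: the `n` points `P i` of the
projective line are different, and the cross ratio of any four of them is an `S`-unit. -/
structure IsIntegralPoint (S : Finset ℕ) (P : Fin n → Fin 2 → K) : Prop where
  distinct : ∀ i j, i ≠ j → det2 (P i) (P j) ≠ 0
  unit : ∀ f : Fin 4 → Fin n, Function.Injective f →
    IsSUnit S (crossRatio P (f 0) (f 1) (f 2) (f 3))

/-- The `S`-integral points of `M_{0,n}` of degree at most `r` over `k`: the systems of the complex
numbers `φ (crossRatio P i j l m)` for the `S`-integral points `P` over the extensions `L` of `k`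
of degree at most `r`, and the embeddings `φ` of `L`. -/
def integralPoints (k : Type) [Field k] (r n : ℕ) (S : Finset ℕ) :
    Set (Fin n → Fin n → Fin n → Fin n → ℂ) :=
  {c | ∃ (L : Type) (_ : Field L) (_ : NumberField L) (_ : Algebra k L) (P : Fin n → Fin 2 → L)
    (φ : L →+* ℂ), Module.finrank k L ≤ r ∧ IsIntegralPoint S P ∧
      c = fun i j l m => φ (crossRatio P i j l m)}

theorem integralPoints_eq (k : Type) [Field k] (r n : ℕ) (S : Finset ℕ) :
    integralPoints k r n S = Pool.Agent.Y734.R.Ps k r n S := by
  ext c
  constructor
  · rintro ⟨L, iF, iN, iA, P, φ, hL, hP, hc⟩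
    exact ⟨L, iF, iN, iA, P, φ, hL, ⟨hP.distinct, hP.unit⟩, hc⟩
  · rintro ⟨L, iF, iN, iA, P, φ, hL, hP, hc⟩
    exact ⟨L, iF, iN, iA, P, φ, hL, ⟨hP.1, hP.2⟩, hc⟩

/-- Integral points of `M_{0,n}` of degree at most `r ≥ 2` over a number field `k`. For each `k`
there is a number `m` such that for `n ≥ 4` there are only finitely many `S`-integral points for
all finite sets `S` of primes if and only if `n ≥ m`. All these numbers are at least `2 r + 3` and
at most `256 r ^ 5 + 1`; for some `k` there are infinitely many `S`-integral points for
`n = 4 r - 2`, so `m ≥ 4 r - 1`. -/
theorem result (r : ℕ) (hr : 2 ≤ r) :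
    (∀ (k : Type) [Field k] [NumberField k], ∃ m : ℕ, 2 * r + 3 ≤ m ∧
      m ≤ 256 * r ^ 5 + 1 ∧ ∀ n, 4 ≤ n →
        ((∀ S : Finset ℕ, (∀ p ∈ S, p.Prime) → (integralPoints k r n S).Finite) ↔ m ≤ n)) ∧
    ∃ (k : Type) (_ : Field k) (_ : NumberField k) (S : Finset ℕ), (∀ p ∈ S, p.Prime) ∧
      (integralPoints k r (4 * r - 2) S).Infinite := by
  simp only [integralPoints_eq]
  exact Pool.Agent.Y734.R.main5 (Pool.Agent.Y734.R.P4.cc (Pool.Agent.Y734.R.P3.big
    (Pool.Agent.Y734.R.P2.clu Pool.Agent.Y734.R.P1.psd))) Pool.Agent.Y734.R.MON.mon
    Pool.Agent.Y734.R.LOWB.lowb r hr

end Pool.Agent.Results.MP_651af7_nt.BoundedDegreePointsModuli
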