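import Mathlib
import Pool.Agent.Y734.I.Final
import Pool.Agent.Y734.I.DM.Main
import Pool.Agent.Y734.I.EMPTY.Main

/-!
# Integral points of bounded degree on the complement of generic hyperplane sections

`X ⊂ ℙᴺ` is a projective variety over `ℚ` of dimension `n ≥ 2`, `r ≥ 1` and `q ≥ r n + 2`. For `q`
hyperplanes of `ℙᴺ` outside a proper closed subset of the space of arrangements (which depends on
`X`, `r` and `q` only), `D` the sum of the `q` hyperplane sections of `X`, and for every finite set
`S` of places of `ℚ`, the `(D, S)`-integral points of `X` of degree at most `r` over `ℚ` are not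
Zariski dense in `X`.

For the points of degree at most `r` of `X = ℙⁿ` one has `d(x) ≤ (2 r - 2) h(x) + O(1)`, so Vojta's
conjecture implies this for `q ≥ n + 2 r`: for `X = ℙ²` and all `r` the theorem has exactly the
range `q ≥ 2 r + 2` of the conjecture.

Proof. Take the germs along an ultrafilter of a generic sequence of integral points, and let
`P₁, …, P_r` be the conjugates. The norms `u_i = ∏_k H_i(P_k)` are `S`-units up to a common factor,
so by the unit equation the transcendence degree of the field of the quotients `u_i / u_j` is the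
rank of the group which they generate modulo constants. One specialises the tuple along valuation
rings, losing in every step only one from the transcendence degree (Krull's theorem), in such a way
that `P₁` becomes a point of intersection of `n` of the hyperplanes. A counting argument on the
ranks shows that there are a nonempty set `C` of hyperplanes, a set `A` of `n - 1` hyperplanes and
a set `J` of `|C|` hyperplanes such that for every `j ∈ J` there is a specialisation
`p_1, …, p_r` such that a `p_k` is on the hyperplanes in `A ∪ {j}`, every hyperplane which is not in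
`C` contains one of the `p_k`, and the products `∏_k H_i(p_k)`, `i ∈ C`, are proportional to numbers
`κ_i ≠ 0` which do not depend on `j`. That this does not happen for generic hyperplanes is seen by a
specialisation of the arrangement: `H_{φ(j)}`, `φ : J → C` a bijection, becomes a combination of
`H_j` and the `H_a`, `a ∈ A`.
-/

set_option autoImplicit false

namespace Pool.Agent.Results.MP_651af7_nt.GenericHyperplanes

open NumberField IsDedekindDomain

variable {L : Type} [Field L] [NumberField L] {N : ℕ}

/-- The local Weil function of the divisor `F = 0`, `F` a form of degree `d` over `ℚ`, at the point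
with homogeneous coordinates `x` over `L`, for the absolute value `a` of `L`. -/
noncomputable def weil (a : L → ℝ) (F : MvPolynomial (Fin (N + 1)) ℚ) (d : ℕ)
    (x : Fin (N + 1) → L) : ℝ :=
  Real.log ((⨆ j, a (x j)) ^ d / a (MvPolynomial.aeval x F))

/-- The proximity function `∑_{v ∈ S} λ_{D,v}(x)`, with absolute normalisation, where `S` consists
of the archimedean place of `ℚ` and of the primes in `S`: the sum over all infinite places of `L`
and over the primes of `L` above the primes in `S`, divided by `[L : ℚ]`. -/
noncomputable def proximity (S : Finset ℕ) (F : MvPolynomial (Fin (N + 1)) ℚ) (d : ℕ)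
    (x : Fin (N + 1) → L) : ℝ :=
  ((∑ w : InfinitePlace L, w.mult * weil w F d x) +
    ∑ᶠ v ∈ {v : HeightOneSpectrum (𝓞 L) | ∃ p ∈ S, (p : 𝓞 L) ∈ v.asIdeal},
      weil (FinitePlace.mk v) F d x) / Module.finrank ℚ L

/-- The absolute logarithmic height. -/
noncomputable def height (x : Fin (N + 1) → L) : ℝ :=
  Height.logHeight x / Module.finrank ℚ L

/-- The linear form with coefficients `l`. -/
noncomputable def lin (l : Fin (N + 1) → ℚ) : MvPolynomial (Fin (N + 1)) ℚ :=
  ∑ j, MvPolynomial.C (l j) * MvPolynomial.X j

/-- Let `𝔭` be a homogeneous prime ideal of `ℚ[X_0, …, X_N]` such that the quotient has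
transcendence degree `n + 1 ≥ 3`, `X ⊂ ℙᴺ` its variety, of dimension `n`, and let
`q ≥ r n + 2`. There is a nonzero polynomial `Φ` in the coefficients of `q` linear forms such that
for all `H` with `Φ(H) ≠ 0`, all finite sets `S` of primes and all `C` there is a form `Z`, not
identically zero on `X`, such that `Z(x) = 0` for all number fields `L` of degree at most `r` and
all `x ∈ X(L)` off `D = ∑ D_i`, `D_i` the divisor of `lin (H i)` on `X`, with
`q h(x) ≤ ∑_{v ∈ S ∪ {∞}} λ_{D,v}(x) + C`. -/
theorem result (N n r q : ℕ) (hn : 2 ≤ n) (hq : r * n + 2 ≤ q)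
    (𝔭 : Ideal (MvPolynomial (Fin (N + 1)) ℚ)) (hprime : 𝔭.IsPrime)
    (hhom : ∀ F ∈ 𝔭, ∀ d, MvPolynomial.homogeneousComponent d F ∈ 𝔭)
    (hdim : Algebra.trdeg ℚ (MvPolynomial (Fin (N + 1)) ℚ ⧸ 𝔭) = n + 1) :
    ∃ Φ : MvPolynomial (Fin q × Fin (N + 1)) ℚ, Φ ≠ 0 ∧
      ∀ H : Fin q → Fin (N + 1) → ℚ, MvPolynomial.eval (fun ij => H ij.1 ij.2) Φ ≠ 0 →
        ∀ S : Finset ℕ, (∀ p ∈ S, p.Prime) → ∀ C : ℝ,
          ∃ (d : ℕ) (Z : MvPolynomial (Fin (N + 1)) ℚ), Z.IsHomogeneous d ∧ Z ∉ 𝔭 ∧
            ∀ (L : Type) [Field L] [NumberField L], Module.finrank ℚ L ≤ r →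
              ∀ x : Fin (N + 1) → L, x ≠ 0 → (∀ F ∈ 𝔭, MvPolynomial.aeval x F = 0) →
                MvPolynomial.aeval x (∏ i, lin (H i)) ≠ 0 →
                (q : ℝ) * height x ≤ proximity S (∏ i, lin (H i)) q x + C →
                  MvPolynomial.aeval x Z = 0 := by
  obtain ⟨Φ, hΦ, h⟩ := Pool.Agent.Y734.I.varX Pool.Agent.Y734.I.DM.dimq
    Pool.Agent.Y734.I.EMPTY.empty hn hq 𝔭 hprime hhom hdim
  refine ⟨Φ, hΦ, fun H hH S hS C => ?_⟩
  obtain ⟨d, Z, hZ1, hZ2, hZ⟩ := h H hH S hS C
  refine ⟨d, Z, hZ1, hZ2, fun L _ _ hL x hx hX hD hint => hZ L hL x ⟨hx, ?_, hD, hint⟩⟩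
  exact fun F hF => hX F hF.1

end Pool.Agent.Results.MP_651af7_nt.GenericHyperplanes
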