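import Mathlib
import Pool.Agent.Y734.Top
import Pool.Agent.Y734.Fin2
import Pool.Agent.Y734.B.Main
import Pool.Agent.Y734.USST.Main
import Pool.Agent.Y734.BR2.Main
import Pool.Agent.Y734.HYP2.Main
import Pool.Agent.Y734.GROW.Main
import Pool.Agent.Y734.DIM.Main
import Pool.Agent.TH551.SU.Sst

/-!
# Vojta's conjecture for quadratic points in the plane: the constant six, with an explicit
# exceptional set independent of the places and of `ε`

`X = ℙ²` over `ℚ`, `D` a sum of `q` lines over `ℚ` in general position, `S` a finite set of places.
For points of degree at most two Vojta's conjecture implies `m_S(D, x) ≤ (5 + ε) h(x) + C` outside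
a proper closed subset `Z` which does not depend on `S`, since `d(x) ≤ 2 h(x) + O(1)`. We prove
`m_S(D, x) ≤ (6 + ε) h(x) + C` for all `x` of degree at most two outside `D` and outside the
finitely many rational lines which contain at least three double points of `D`.
(Levin, *On the Schmidt subspace theorem for algebraic points*, has `15 / 2` in place of `6`, with
an exceptional set depending on `S` and `ε`.)

Proof. Along an ultrafilter let `P` be a hyperpoint of degree two and `P'` its conjugate. The
subspace theorem over `ℚ` is applied to the forms in the entries of the primitive symmetric matrix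
`M = c (P P'ᵀ + P' Pᵀ)`, with weights at a place `v` coming from a basis of linear forms adapted to
the positions of both `P` and `P'` with respect to `D`. Suppose first that `P` is on no rational
line. Let `ρ` be the rank over `ℚ` of the entries of `M`. For `ρ = 6` the linear forms suffice, for
`ρ = 5` one needs in addition Liouville's inequality for one line of `D`; for `ρ = 4` the `M` lie on
a quadric or cubic surface, and one takes the forms of large degree on the surface (Evertse and
Ferretti), with a special treatment of the determinantal cubic surfaces which contain a common line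
of the planes of large weight and of the quadrics which come from a fixed line over a quadratic
field; for `ρ = 3` the linear forms suffice, unless `P` is on a fixed line over a quadratic field.
If the entries satisfy more equations the dimension of the space of forms of degree `k` grows
linearly, and the bound comes from the powers of one form (as in Roth's theorem). If `P` is on a
rational line, the weights are bounded by those of the restriction of `D` to the line and of the
double points of `D` on the line.
-/

set_option autoImplicit false

namespace Pool.Agent.Results.MP_651af7_nt.QuadraticPlaneUniform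

open NumberField IsDedekindDomain

variable {L : Type} [Field L] [NumberField L] {n : ℕ}

/-- The local Weil function of the divisor `F = 0`, `F` a form of degree `d` over `ℚ`, at the point
with homogeneous coordinates `x` over `L`, for the absolute value `a` of `L`. -/
noncomputable def weil (a : L → ℝ) (F : MvPolynomial (Fin (n + 1)) ℚ) (d : ℕ)
    (x : Fin (n + 1) → L) : ℝ :=
  Real.log ((⨆ j, a (x j)) ^ d / a (MvPolynomial.aeval x F))

/-- The proximity function `∑_{v ∈ S} λ_{D,v}(x)`, with absolute normalisation, where `S` consists
of the archimedean place of `ℚ` and of the primes in `S`: the sum over all infinite places of `L`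
and over the primes of `L` above the primes in `S`, divided by `[L : ℚ]`. -/
noncomputable def proximity (S : Finset ℕ) (F : MvPolynomial (Fin (n + 1)) ℚ) (d : ℕ)
    (x : Fin (n + 1) → L) : ℝ :=
  ((∑ w : InfinitePlace L, w.mult * weil w F d x) +
    ∑ᶠ v ∈ {v : HeightOneSpectrum (𝓞 L) | ∃ p ∈ S, (p : 𝓞 L) ∈ v.asIdeal},
      weil (FinitePlace.mk v) F d x) / Module.finrank ℚ L

/-- The absolute logarithmic height. -/
noncomputable def height (x : Fin (n + 1) → L) : ℝ :=
  Height.logHeight x / Module.finrank ℚ L

/-- The linear form with coefficients `l`. -/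
noncomputable def lin (l : Fin (n + 1) → ℚ) : MvPolynomial (Fin (n + 1)) ℚ :=
  ∑ j, MvPolynomial.C (l j) * MvPolynomial.X j

/-- The pairs `i < j` such that the common point of the lines `lin (H i) = 0` and `lin (H j) = 0`
is on the line `lin ℓ = 0`. -/
def pairsOn {q : ℕ} (H : Fin q → Fin 3 → ℚ) (ℓ : Fin 3 → ℚ) : Finset (Fin q × Fin q) :=
  Finset.univ.filter fun p => p.1 < p.2 ∧ Matrix.det (Matrix.of ![H p.1, H p.2, ℓ]) = 0

/-- Let `D` be the sum of `q` lines `lin (H i) = 0` of the plane over `ℚ`, any three of which have
no common point. There is a finite set `Λ` of rational lines, each of which contains at least three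
double points of `D`, such that for every finite set `S` of primes and every `ε > 0` there is a
constant `C` with `∑_{v ∈ S ∪ {∞}} λ_{D,v}(x) + h_K(x) ≤ (3 + ε) h(x) + C`, `h_K = -3 h`, for all
number fields `L` of degree at most two and all `x ∈ ℙ²(L)` off `D` and off the lines in `Λ`. -/
theorem result (q : ℕ) (H : Fin q → Fin 3 → ℚ)
    (hH : ∀ I : Finset (Fin q), I.card = 3 → LinearIndependent ℚ (fun i : I => H i)) :
    ∃ Λ : Finset (Fin 3 → ℚ), (∀ ℓ ∈ Λ, ℓ ≠ 0 ∧ 3 ≤ (pairsOn H ℓ).card) ∧
      ∀ S : Finset ℕ, (∀ p ∈ S, p.Prime) → ∀ ε : ℝ, 0 < ε →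
        ∃ C : ℝ, ∀ (L : Type) [Field L] [NumberField L], Module.finrank ℚ L ≤ 2 →
          ∀ x : Fin 3 → L, x ≠ 0 → MvPolynomial.aeval x (∏ i, lin (n := 2) (H i)) ≠ 0 →
            (∀ ℓ ∈ Λ, MvPolynomial.aeval x (lin (n := 2) ℓ) ≠ 0) →
              proximity (n := 2) S (∏ i, lin (H i)) q x + -3 * height (n := 2) x ≤
                (3 + ε) * height (n := 2) x + C := by
  have habs : Pool.Agent.Y734.B.AbsStmt2 :=
    Pool.Agent.Y734.B.abs2 Pool.Agent.Y734.GROW.grow Pool.Agent.Y734.DIM.dim
      Pool.Agent.Y734.DIM.dim3
  have hyp : Pool.Agent.Y734.B.HypStmt2 :=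
    Pool.Agent.Y734.HYP2.hyp2 (Pool.Agent.Y734.USST.usst Pool.Agent.TH551.SU.sst) habs
  obtain ⟨Λ, hΛ, h⟩ := Pool.Agent.Y734.B.top_of2 Pool.Agent.Y734.BR2.br2 hyp q H
    (Pool.Agent.Y734.genPos_of hH)
  refine ⟨Λ, hΛ, ?_⟩
  intro S hS ε hε
  obtain ⟨C, hC⟩ := h S hS ε hε
  refine ⟨C, ?_⟩
  intro L _ _ hL x hx hF hx'
  have h1 : proximity (n := 2) S (∏ i, lin (H i)) q x ≤ (6 + ε) * height (n := 2) x + C :=
    hC L hL x hx hF hx'
  linarith

end Pool.Agent.Results.MP_651af7_nt.QuadraticPlaneUniform
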